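import Mathlib

open Filter Topology Set

namespace Pool.Agent.Results.MP_0aa9c3_an.IterDiff

/-- `Id - T` is monotone for nonexpansive `T`. -/
theorem mono_of_nonexp (T : ℝ → ℝ) (hT : ∀ x y, |T x - T y| ≤ |x - y|) :
    Monotone (fun x => x - T x) := by
  intro x y hxy
  have h := hT y x
  rw [abs_of_nonneg (sub_nonneg.2 hxy)] at h
  have := le_abs_self (T y - T x)
  show x - T x ≤ y - T y
  linarith

theorem cont_of_nonexp (T : ℝ → ℝ) (hT : ∀ x y, |T x - T y| ≤ |x - y|) :
    Continuous T := by
  have : LipschitzWith 1 T := by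
    apply LipschitzWith.of_dist_le_mul
    intro x y
    simpa [Real.dist_eq] using hT x y
  exact this.continuous

/-- The displacement along an orbit tends to `v` when `v > 0`. -/
theorem disp_tendsto_pos (T : ℝ → ℝ) (hT : ∀ x y, |T x - T y| ≤ |x - y|) (v : ℝ)
    (hv : v ∈ closure (range fun x => x - T x))
    (hmin : ∀ w ∈ closure (range fun x => x - T x), |v| ≤ |w|) (hpos : 0 < v) (x : ℝ) :
    Tendsto (fun n => T^[n] x - T (T^[n] x)) atTop (𝓝 v) := by
  have hmono := mono_of_nonexp T hT
  have hcont : Continuous (fun x => x - T x) := continuous_id.sub (cont_of_nonexp T hT)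
  have happrox : ∀ ε > 0, ∃ z, |v - (z - T z)| < ε := by
    intro ε hε
    obtain ⟨w, ⟨z, rfl⟩, hz⟩ := Metric.mem_closure_iff.1 hv ε hε
    exact ⟨z, by rwa [Real.dist_eq] at hz⟩
  have hge : ∀ z, v ≤ z - T z := by
    intro z
    by_contra hlt
    push Not at hlt
    have h1 : |v| ≤ |z - T z| := hmin _ (subset_closure ⟨z, rfl⟩)
    rw [abs_of_pos hpos] at h1
    have h2 : z - T z ≤ 0 := by
      by_contra h3
      push Not at h3
      rw [abs_of_pos h3] at h1
      linarith
    obtain ⟨z0, hz0⟩ := happrox v hpos
    have h4 : 0 ≤ z0 - T z0 := by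
      have := (abs_lt.1 hz0).2
      linarith
    obtain ⟨u, hu⟩ := intermediate_value_univ z z0 hcont ⟨h2, h4⟩
    have h5 : |v| ≤ |u - T u| := hmin _ (subset_closure ⟨u, rfl⟩)
    have hu' : u - T u = 0 := hu
    rw [hu', abs_zero, abs_of_pos hpos] at h5
    linarith
  have hiter : ∀ n : ℕ, T^[n] x ≤ x - n * v := by
    intro n
    induction n with
    | zero => simp
    | succ n ih =>
      rw [Function.iterate_succ_apply']
      have := hge (T^[n] x)
      push_cast
      linarith
  rw [Metric.tendsto_atTop]
  intro ε hε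
  obtain ⟨z, hz⟩ := happrox ε hε
  obtain ⟨N, hN⟩ := exists_nat_ge ((x - z) / v)
  refine ⟨N, fun n hn => ?_⟩
  have h1 : T^[n] x ≤ z := by
    have h2 : (N : ℝ) ≤ n := by exact_mod_cast hn
    have h3 : x - z ≤ n * v := by
      rw [div_le_iff₀ hpos] at hN
      nlinarith
    linarith [hiter n]
  have h2 : T^[n] x - T (T^[n] x) ≤ z - T z := hmono h1
  have h3 := hge (T^[n] x)
  have h4 := (abs_lt.1 hz).1
  rw [Real.dist_eq, abs_lt]
  constructor <;> linarith

/-- The displacement along an orbit tends to `v` when `v ≠ 0`. -/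
theorem disp_tendsto (T : ℝ → ℝ) (hT : ∀ x y, |T x - T y| ≤ |x - y|) (v : ℝ)
    (hv : v ∈ closure (range fun x => x - T x))
    (hmin : ∀ w ∈ closure (range fun x => x - T x), |v| ≤ |w|) (hv0 : v ≠ 0) (x : ℝ) :
    Tendsto (fun n => T^[n] x - T (T^[n] x)) atTop (𝓝 v) := by
  rcases lt_or_gt_of_ne hv0 with hneg | hpos
  · set S : ℝ → ℝ := fun z => - T (-z) with hS
    have hST : ∀ x y, |S x - S y| ≤ |x - y| := by
      intro a b
      have h := hT (-a) (-b)
      have e1 : S a - S b = -(T (-a) - T (-b)) := by simp only [hS]; ring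
      have e2 : -a - -b = -(a - b) := by ring
      rw [e1, abs_neg]
      rwa [e2, abs_neg] at h
    have hrange : (range fun x => x - S x) = Neg.neg '' (range fun x => x - T x) := by
      ext w
      constructor
      · rintro ⟨a, rfl⟩
        exact ⟨-a - T (-a), ⟨-a, rfl⟩, by simp only [hS]; ring⟩
      · rintro ⟨_, ⟨a, rfl⟩, rfl⟩
        exact ⟨-a, by simp only [hS, neg_neg]; ring⟩
    have hcl : closure (range fun x => x - S x) = Neg.neg '' closure (range fun x => x - T x) := by
      rw [hrange]
      exact ((Homeomorph.neg ℝ).image_closure _).symm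
    have hiter : ∀ n : ℕ, S^[n] (-x) = - T^[n] x := by
      intro n
      induction n with
      | zero => simp
      | succ n ih =>
        rw [Function.iterate_succ_apply', Function.iterate_succ_apply', ih]
        simp only [hS, neg_neg]
    have key := disp_tendsto_pos S hST (-v) (by rw [hcl]; exact ⟨v, hv, rfl⟩)
      (by
        rw [hcl]
        rintro _ ⟨w, hw, rfl⟩
        simpa using hmin w hw) (by linarith) (-x)
    have key2 := key.neg
    rw [neg_neg] at key2
    refine key2.congr (fun n => ?_)
    rw [hiter n]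
    simp only [hS, neg_neg]
    ring
  · exact disp_tendsto_pos T hT v hv hmin hpos x

/-- A real sequence with nonincreasing absolute value and vanishing increments converges. -/
theorem conv_of_abs_anti (d : ℕ → ℝ) (h1 : Antitone fun n => |d n|)
    (h2 : Tendsto (fun n => d n - d (n + 1)) atTop (𝓝 0)) :
    ∃ L, Tendsto d atTop (𝓝 L) := by
  have hb : BddBelow (range fun n => |d n|) := ⟨0, by rintro _ ⟨n, rfl⟩; exact abs_nonneg _⟩
  have hL := tendsto_atTop_ciInf h1 hb
  set L := ⨅ n, |d n| with hLdef
  have hLle : ∀ n, L ≤ |d n| := fun n => ciInf_le hb n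
  have hL0 : 0 ≤ L := le_ciInf fun n => abs_nonneg _
  rcases hL0.eq_or_lt with h0 | hpos
  · refine ⟨0, ?_⟩
    rw [← h0] at hL
    exact (tendsto_zero_iff_abs_tendsto_zero d).2 hL
  · obtain ⟨N, hN⟩ := (Metric.tendsto_atTop.1 h2) L hpos
    have hN' : ∀ n ≥ N, |d n - d (n + 1)| < L := by
      intro n hn
      simpa [Real.dist_eq] using hN n hn
    rcases le_total 0 (d N) with hs | hs
    · have : ∀ n ≥ N, 0 ≤ d n := by
        intro n hn
        induction n, hn using Nat.le_induction with
        | base => exact hs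
        | succ n hn ih =>
          have a1 := hLle n
          rw [abs_of_nonneg ih] at a1
          have a2 := (abs_lt.1 (hN' n hn)).2
          linarith
      refine ⟨L, hL.congr' ?_⟩
      filter_upwards [eventually_ge_atTop N] with n hn
      exact abs_of_nonneg (this n hn)
    · have : ∀ n ≥ N, d n ≤ 0 := by
        intro n hn
        induction n, hn using Nat.le_induction with
        | base => exact hs
        | succ n hn ih =>
          have a1 := hLle n
          rw [abs_of_nonpos ih] at a1
          have a2 := (abs_lt.1 (hN' n hn)).1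
          linarith
      refine ⟨-L, hL.neg.congr' ?_⟩
      filter_upwards [eventually_ge_atTop N] with n hn
      rw [abs_of_nonpos (this n hn), neg_neg]

/-- For nonexpansive `T` on the line whose minimal displacement `v` is nonzero, all differences of
orbits converge (no assumption on the generalized fixed point set is needed). -/
theorem result (T : ℝ → ℝ) (hT : ∀ x y : ℝ, |T x - T y| ≤ |x - y|) (v : ℝ)
    (hv : v ∈ closure (Set.range fun x : ℝ => x - T x))
    (hmin : ∀ w ∈ closure (Set.range fun x : ℝ => x - T x), |v| ≤ |w|)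
    (hv0 : v ≠ 0) (x y : ℝ) :
    ∃ L : ℝ, Filter.Tendsto (fun n : ℕ => T^[n] x - T^[n] y) Filter.atTop (nhds L) := by
  apply conv_of_abs_anti
  · apply antitone_nat_of_succ_le
    intro n
    rw [Function.iterate_succ_apply', Function.iterate_succ_apply']
    exact hT _ _
  · have h := (disp_tendsto T hT v hv hmin hv0 x).sub (disp_tendsto T hT v hv hmin hv0 y)
    rw [sub_self] at h
    refine h.congr (fun n => ?_)
    rw [Function.iterate_succ_apply', Function.iterate_succ_apply']
    ring

end Pool.Agent.Results.MP_0aa9c3_an.IterDiff
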